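import Pool.Agent.Work.MP_def58e_two.C11.CA
import Pool.Agent.Work.MP_def58e_two.C11.CB
import Pool.Agent.Work.MP_def58e_two.C11.Uni

/-!
No two stars of 10 unit vectors.
Generated by a program.
-/

set_option maxRecDepth 100000

namespace MPdef58eC11

open MPdef58e MPdef58eHole MPdef58eTwo

theorem noPair : NoPair 10 (251 / 500) (1 / 500) := by
  intro a b e ha hb he haa hbb hae hbe hab
  refine no_double (N := 10) (by norm_num) a b e ha hb he (fns 100000000000000 FP) (fns 100000000000000 FM)
    (fnd 2441406250000000000000000000000000000000000000000000000000 g1) (fnd 244140625000000000000000000000000000000000000000000000000 g2) (1 / 100000000) (251 / 500) (1 / 500) (by norm_num) ?_ ?_ ?_ haa hbb hae hbe hab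
  · intro u h1 h2
    exact diag_bound h1 h2
  · intro u v t hu hv ht
    refine (boundA hu hv ht).trans (le_of_eq ?_)
    norm_num
  · intro u v t hu hv ht
    refine (boundB hu hv ht).trans (le_of_eq ?_)
    norm_num

end MPdef58eC11
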